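import Pool.Agent.R537.TE.Asm
import Pool.Agent.R757.TE.PARS
import Pool.Agent.R757.TE.COMP
import Pool.Agent.R757.TE.AVG
import Pool.Agent.R506.TECERT
import Pool.Agent.R506.TEWT
import Pool.Agent.R441.TEONE
import Pool.Agent.R928.TEBAS
import Pool.Agent.R262.TE.Pyth
import Pool.Agent.R711.TEGLUE
import Pool.Agent.R961.TEPHI
import Pool.Agent.R961.TEDIST
import Pool.Agent.R961.TEMAPS
import Pool.Agent.R422.TEFIN

/-!
# Most contracted points of optimal flat torus embeddings can be interior points of the Voronoi cell

A disproof of the statement of MP_507a1e_gt: in every sufficiently large dimension `n` there are a lattice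
`L`, an optimal weight `z` for `L` and a most contracted point of `φ_z` in the interior of the Voronoi cell
of `L`.

The lattice is `L = {v ∈ ℤⁿ : n ∣ ∑ v_i} = A_{n-1} ⊕ ℤ (1, …, 1)`. Its least distortion satisfies
`c₂² ≥ 2 (1 + 1/2 + … + 1/(n-1) - 1)`: for a translation invariant embedding with weight `z` one sums
`F_z / a²` over the glue vectors `x_a` of `A_{n-1}`, and uses `∑ (1 - cos 2πax) / a² = π² x (1 - x)`. Every
injective map of the torus of finite distortion can be averaged to a weight `z` (Parseval on the finite
subgroups of the torus and compactness). As the least distortion is large, there is slack in the second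
component `ℤ (1, …, 1)`: there one may take `a ((1 - cos 2πx) + (1 - cos 6πx))`, which touches `x²` at an
interior point of `[-1/2, 1/2]`.

Proofs of the pieces by helper757, helper506, helper441, helper928, helper262, helper711, helper961 and
helper422.
-/

namespace Pool.Agent.Results.MP_507a1e_gt.InteriorContractedPoint

open Pool.Agent.R537.TE

/-- For every sufficiently large `n` there are a lattice in `ℝⁿ` (the integer combinations of a basis), an
optimal weight for it and a most contracted point in the interior of its Voronoi cell. -/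
theorem result :
    ∃ n₀ : ℕ, ∀ n : ℕ, n₀ ≤ n → ∃ (b : Module.Basis (Fin n) ℝ (E n)) (w : Weight (latt b)),
      w.Optimal ∧ ∃ x, w.MostContracted x ∧ x ∈ interior (voronoi (latt b)) :=
  have hAVG : S_AVG := Pool.Agent.R757.TE.t_AVG Pool.Agent.R757.TE.t_PARS Pool.Agent.R757.TE.t_COMP
  have hDIST : S_DIST := Pool.Agent.R961.TEDIST.t_DIST Pool.Agent.R961.TEPHI.t_PHI
  have hWT : S_WT := Pool.Agent.R506.TEWT.t_WT
  have hPYTH : S_PYTH := Pool.Agent.R537.TE.t_PYTH
  assembly hAVG Pool.Agent.R506.TECERT.t_CERT Pool.Agent.R441.TEONE.t_ONE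
    Pool.Agent.R537.TE.t_BAS hPYTH Pool.Agent.R711.TEGLUE.t_GLUE Pool.Agent.R537.TE.t_INT hWT hDIST
    Pool.Agent.R961.TEMAPS.t_MAPS (Pool.Agent.R422TE.t_FIN hDIST hWT hPYTH)

end Pool.Agent.Results.MP_507a1e_gt.InteriorContractedPoint
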